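import Pool.Agent.J4.H82.CC.S

/-!
# Alternating powers of the transcendental motive of a quotient of a product of two curves

Let `G` be a finite abelian group which acts on two smooth projective curves `C₁`, `C₂` over the
algebraically closed field `k` of characteristic zero, such that `C₁/G` and `C₂/G` are rational
curves, let `S = (C₁ × C₂)/G` be the quotient by the diagonal action, and let the order of all
elements of `G` divide `m`, where `m = 2, 3` or `4`. For a character `χ` of `G` let `q₁ χ`, `q₂ χ` be
the dimensions of the spaces of the holomorphic differential forms on `C₁`, `C₂` on which `G` acts by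
`χ`. By the formula of Chevalley and Weil `q χ + 1 = resid f⁻¹ / m` for `χ ≠ 1`, where `f = w ^ m` for
a function `w ≠ 0` on the curve on which `G` acts by `χ`, and `resid` is the sum of the residues modulo
`m` (between `0` and `m - 1`) of the orders of a function on the quotient. The geometric genus of (a
resolution of the singularities of) `S` is

  `p_g = ∑ q₁ χ * q₂ χ⁻¹`, the sum over `χ ≠ 1`,

and the irregularity is zero. We assume that both actions are balanced: `|q χ - q χ⁻¹| ≤ 1` for all `χ`.

The theorem says: if `n > p_g` then the alternating sum of `a 1 × ... × a n` times a point of `X` is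
torsion in the Chow group of `S ^ n × X`, for all zero-cycles `a 1`, ..., `a n` of degree zero on `S`
and all varieties `X`. In other words, `CH_0(M) = 0` (rational coefficients) for the motive

  `M = Λ ^ n t(S) ⊗ h(X)`,

where `t(S)` is the transcendental motive of `S`, or the whole motive `h²(S)`, or the motive
`h(S) - 1` of the zero-cycles of degree zero. By Mumford's theorem the condition `n > p_g` cannot be
weakened if `k` is the field of the complex numbers: the motive `Λ ^ n t(S)` has holomorphic forms of
degree `2 n` if `n ≤ p_g`. For `X` a point this is Voisin's conjecture for `S`.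

An example. Let `C₁`, `C₂` be curves of genus `3` with equations `y ^ 3 = f(x)`, `f` a polynomial of
degree `4` without multiple roots (Picard curves), and `G = μ₃`. The dimensions `q χ` are `1` and `2`
for the two nontrivial characters, `p_g = 4` or `5`, depending on the choice of the actions. More
generally the curves `y ^ 3 = f(x)`, `f` with `a` simple and `b` double zeros on the projective line,
`|a - b| ≤ 3`, are allowed. The numbers `q χ` and `q χ⁻¹` are equal if the branch points of all the
covers can be arranged in pairs with opposite orders; this case is known for all abelian groups.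

Relation to the problem. Let all the data be defined over a number field `K`, `k` an algebraic closure
of `K`, `X` smooth projective of dimension `e` and `n > 0`. The cohomology of
`M = (S ^ n × X, alternating projector, 2 n + e)` is zero in the degrees greater than
`2 n + 2 e`, so that `V^{2N-1}(M) = V^{2N}(M) = 0` for `N = 2 n + e`: all zero-cycles on `M` are
homologically trivial and Q1 says that `CH(M)` is zero. Since `CH(M)` is contained in the Chow group
of `M` over `k`, for rational coefficients, it is zero by the theorem: Q1 holds for all these motives.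

The idea of the proof. A functional on the zero-cycles of `S ^ n × X` which vanishes on the cycles
rationally equivalent to zero is pulled back to `(C₁ × C₂) ^ n` and decomposed into parts which are
equivariant for `G ^ n` with characters `χ_i` of `G` in the coordinates `i` for the first curve (and
their inverses for the second). There is a character `χ` which is equal to more than `q₁ χ * q₂ χ⁻¹`
of the `χ_i`, and a character `ψ` which is equal to more than `q₁ ψ⁻¹ * q₂ ψ` of them. The
alternating part of the functional is decomposed into parts which are symmetric in subsets of the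
coordinates for the first or for the second curve. In all parts there is a large subset with the
character `χ` on one of the curves, and another one for `ψ`. One constructs a curve of configurations
of points on the projective lines, where these subsets move, the product of all the values of the
functions `f` is an `m`-th power of a function of the parameter, and a coordinate moves to a branch
point, where the functional is zero; the two different covers are needed since neither for `χ` nor
for `ψ` the points in the subset alone are enough.
-/

set_option autoImplicit false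

open FF IntermediateField

namespace Pool.Agent.Results.MP_386e47_ag.AlternatingPowers

open Pool.Agent.J4.H17.ZC

section defs

variable (k : Type) [Field k]

/-- The curve with function field `F` is rational. -/
def Rational (F : Type) [Field F] [Algebra k F] : Prop :=
  ∃ t : F, Transcendental k t ∧ Module.finrank k⟮t⟯ F = 1

/-- The sum of the residues modulo `m`, between `0` and `m - 1`, of the orders of the function `f`
at the points of the curve with function field `F`. -/
noncomputable def resid [CharZero k] {F : Type} [Field F] [Algebra k F] [IsFF k F] (m : ℕ)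
    (f : F) : ℤ :=
  (divisor k f).sum fun _ n => n % m

variable {k} {K1 K2 : Type} [Field K1] [Algebra k K1] [Field K2] [Algebra k K2]
  {G : Type} [CommGroup G]

/-- Two pairs of points are equivalent if they are in the same orbit of the diagonal action of the
group `G`, which acts on the two curves by `α1` and `α2`. -/
def orb (α1 : G →* (K1 ≃ₐ[k] K1)) (α2 : G →* (K2 ≃ₐ[k] K2)) :
    Setoid (Place k K1 × Place k K2) where
  r x y := ∃ g : G, y = (act (α1 g) x.1, act (α2 g) x.2)
  iseqv :=
    { refl := fun x => ⟨1, by rw [map_one, map_one, act_one, act_one]⟩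
      symm := by
        rintro x y ⟨g, rfl⟩
        refine ⟨g⁻¹, ?_⟩
        change x = (act (α1 g⁻¹) (act (α1 g) x.1), act (α2 g⁻¹) (act (α2 g) x.2))
        rw [← act_mul, ← act_mul, ← map_mul, ← map_mul, inv_mul_cancel, map_one, map_one, act_one,
          act_one]
      trans := by
        rintro x y z ⟨g, rfl⟩ ⟨h, rfl⟩
        refine ⟨h * g, ?_⟩
        rw [map_mul, map_mul, act_mul, act_mul] }

/-- The quotient of the product of the two curves by the diagonal action of the group. -/
def quotSurf (α1 : G →* (K1 ≃ₐ[k] K1)) (α2 : G →* (K2 ≃ₐ[k] K2)) : Var k :=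
  ((curve k K1).prod (curve k K2)).quot (Quotient.mk (orb α1 α2))

/-- The quotient of the curve with function field `K` by the action `α` of the group `G` is a rational
curve, for every character `χ ≠ 1` there is a nonzero function `w` on which `G` acts by `χ` such that
`f = w ^ m` is a function on the quotient with `resid f⁻¹ = m * (q χ + 1)` (that is, `q χ` is the
dimension of the space of the holomorphic differential forms on which `G` acts by `χ`), and the
numbers `q χ` are balanced: `q χ ≤ q χ⁻¹ + 1`. -/
def Balanced [CharZero k] {K : Type} [Field K] [Algebra k K] (α : G →* (K ≃ₐ[k] K))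
    [IsFF k (fixedField α.range)] (m : ℕ) (q : (G →* kˣ) → ℕ) : Prop :=
  Rational k (fixedField α.range) ∧ ∀ χ : G →* kˣ, χ ≠ 1 → q χ ≤ q χ⁻¹ + 1 ∧
    ∃ (w : K) (f : fixedField α.range), w ≠ 0 ∧
      (∀ g, α g w = algebraMap k K (χ g) * w) ∧ (f : K) = w ^ m ∧
      resid k m f⁻¹ = m * (q χ + 1)

end defs

section proofs

variable {k : Type} [Field k] [CharZero k]

theorem resid_mul_pow {F : Type} [Field F] [Algebra k F] [IsFF k F] (m : ℕ) {f R : F}
    (hf : f ≠ 0) (hR : R ≠ 0) : resid k m (f * R ^ m) = resid k m f := by
  have h1 : ∀ v : Place k F, v.ord (f * R ^ m) = v.ord f + m * v.ord R := by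
    intro v
    rw [v.ord_mul hf (pow_ne_zero m hR), v.ord_pow]
  have e1 : resid k m (f * R ^ m) = _ := J4.H82.CC.resid_eq (k := k) m (f * R ^ m)
  have e2 : resid k m f = _ := J4.H82.CC.resid_eq (k := k) m f
  rw [e1, e2]
  have h2 : J4.H82.CC.Brm (k := k) m (f * R ^ m) = J4.H82.CC.Brm (k := k) m f := by
    ext v
    rw [J4.H82.CC.mem_Brm, J4.H82.CC.mem_Brm, h1]
    rw [(Int.dvd_add_left (Dvd.intro _ rfl))]
  rw [h2]
  refine Finset.sum_congr rfl fun v _ => ?_
  rw [h1, Int.add_mul_emod_self_left]

theorem datum {K : Type} [Field K] [Algebra k K] {G : Type} [CommGroup G] [Fintype G]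
    {α : G →* (K ≃ₐ[k] K)} [IsFF k (fixedField α.range)] {m : ℕ}
    {q : (G →* kˣ) → ℕ} (h : Balanced α m q) : J4.H82.CC.Datum α m q := by
  refine ⟨h.1, fun χ hχ => ?_⟩
  obtain ⟨-, w, f, hw0, hw, hf, hr⟩ := h.2 χ hχ
  obtain ⟨-, w', f', hw0', hw', hf', hr'⟩ := h.2 χ⁻¹ (J4.H82.CC.inv_ne_one'' hχ)
  refine ⟨f, ⟨w, hw0, hw, hf.symm⟩, ?_, ?_⟩
  · -- the product of the two functions is invariant
    have hinv : w * w' ∈ fixedField α.range := by
      rintro ⟨_, g, rfl⟩
      change α g (w * w') = w * w'
      rw [map_mul, hw, hw', MonoidHom.inv_apply, Units.val_inv_eq_inv_val, map_inv₀]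
      have h1 : algebraMap k K ((χ g : kˣ) : k) ≠ 0 := by
        rw [Ne, map_eq_zero]
        exact (χ g).ne_zero
      field_simp
    let R : fixedField α.range := ⟨w * w', hinv⟩
    have hR0 : R ≠ 0 := fun h => mul_ne_zero hw0 hw0' (congrArg Subtype.val h)
    have hf0 : f ≠ 0 := by
      intro h
      rw [h] at hf
      exact pow_ne_zero m hw0 hf.symm
    have hf0' : f' ≠ 0 := by
      intro h
      rw [h] at hf'
      exact pow_ne_zero m hw0' hf'.symm
    have h1 : f = f'⁻¹ * R ^ m := by
      rw [eq_inv_mul_iff_mul_eq₀ hf0']
      apply Subtype.ext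
      push_cast
      rw [hf, hf', mul_pow, mul_comm]
    have h2 := resid_mul_pow (k := k) m (inv_ne_zero hf0') hR0
    rw [← h1, hr'] at h2
    rw [← J4.H82.CC.resid_eq]
    exact h2
  · rw [← J4.H82.CC.resid_inv]
    exact hr

end proofs

/-- **Theorem.** Let the finite abelian group `G` act on two smooth projective curves `C₁`, `C₂`
(given by their function fields `K1`, `K2`) with rational quotients, let `m = 2, 3` or `4` and let the
actions be balanced in the sense of the definition `Balanced` (the orders of the elements of `G`
divide `m`, and the dimensions `q₁ χ`, `q₂ χ` of the spaces of holomorphic differential forms with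
character `χ` satisfy `|q χ - q χ⁻¹| ≤ 1`). Let `n > ∑ q₁ χ * q₂ χ⁻¹`, the sum over `χ ≠ 1`, the
geometric genus of the surface `S = (C₁ × C₂)/G`. Then for all zero-cycles `a 1`, ..., `a n` of
degree zero on `S`, all varieties `X` and points `p` of `X`, a positive multiple of the alternating
sum of the cycles `a 1 × ... × a n × p` is rationally equivalent to zero on `S ^ n × X`. -/
theorem result {k : Type} [Field k] [CharZero k] [IsAlgClosed k] (K1 K2 : Type) [Field K1]
    [Algebra k K1] [IsFF k K1] [Field K2] [Algebra k K2] [IsFF k K2] (G : Type) [CommGroup G]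
    [Fintype G] (α1 : G →* (K1 ≃ₐ[k] K1)) (α2 : G →* (K2 ≃ₐ[k] K2))
    [IsFF k (fixedField α1.range)] [IsFF k (fixedField α2.range)] {m : ℕ}
    (hm : m = 2 ∨ m = 3 ∨ m = 4) (q1 q2 : (G →* kˣ) → ℕ)
    (h1 : Balanced α1 m q1) (h2 : Balanced α2 m q2) (n : ℕ)
    (hn : ∑ᶠ χ ∈ {χ : G →* kˣ | χ ≠ 1}, q1 χ * q2 χ⁻¹ < n)
    (X : Var k) (hX : ∀ (L : Type) [Field L] [Algebra k L] (p : X.Pt), X.IsMor L fun _ => p)
    (a : Fin n → ((quotSurf α1 α2).Pt →₀ ℤ)) (ha : ∀ i, ((a i).sum fun _ c => c) = 0)
    (p : X.Pt) :
    ∃ N : ℕ, 0 < N ∧ N • Finsupp.mapDomain (fun y => (y, p)) (altSum a) ∈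
      RatEq (((quotSurf α1 α2).pow (Fin n)).prod X) := by
  classical
  have hd1 := datum h1
  have hd2 := datum h2
  obtain ⟨qm, hqm⟩ : ∃ qm : Place k K1 × Place k K2 → (quotSurf α1 α2).Pt,
      qm = Quotient.mk (orb α1 α2) := ⟨_, rfl⟩
  have hq : ∀ y : (quotSurf α1 α2).Pt, ∃ x, qm x = y := by
    intro y
    rw [hqm]
    exact Quotient.exists_rep (s := orb α1 α2) y
  choose r hr using hq
  have hreg : Reg (X := (quotSurf α1 α2).pow (Fin n))
      (Y := ((quotSurf α1 α2).pow (Fin n)).prod X) (fun y => (y, p)) := by
    intro L _ _ y hy
    exact ⟨hy, hX L p⟩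
  refine torsion_of_hom _ _ fun l hl => ?_
  let φ : (Fin n → Place k K1 × Place k K2) → k := fun x =>
    ((l (Finsupp.single ((fun i => qm (x i)), p) 1) : ℚ) : k)
  have key : ∀ z : (Fin n → Place k K1 × Place k K2) →₀ ℤ,
      Finsupp.linearCombination ℤ φ z =
        ((l (Finsupp.mapDomain (fun y => (y, p)) (Finsupp.mapDomain
          (fun (x : Fin n → Place k K1 × Place k K2) i => qm (x i)) z)) : ℚ) : k) := by
    intro z
    induction z using Finsupp.induction_linear with
    | zero => simp
    | add u v hu hv =>
      rw [map_add, hu, hv, Finsupp.mapDomain_add, Finsupp.mapDomain_add, map_add, Rat.cast_add]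
    | single x c =>
      rw [Finsupp.linearCombination_single, Finsupp.mapDomain_single, Finsupp.mapDomain_single]
      have h3 : Finsupp.single ((fun i => qm (x i)), p) c =
          c • Finsupp.single ((fun i => qm (x i)), p) (1 : ℤ) := by
        rw [Finsupp.smul_single, smul_eq_mul, mul_one]
      rw [h3, map_zsmul, zsmul_eq_mul, zsmul_eq_mul, Rat.cast_mul, Rat.cast_intCast]
  have hφ : ∀ z ∈ RatEq (((curve k K1).prod (curve k K2)).pow (Fin n)),
      Finsupp.linearCombination ℤ φ z = 0 := by
    intro z hz
    rw [key]
    have h3 := quot_mem (X := (curve k K1).prod (curve k K2)) qm hz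
    have h3' : Finsupp.mapDomain (fun (x : Fin n → Place k K1 × Place k K2) i => qm (x i)) z ∈
        RatEq ((quotSurf α1 α2).pow (Fin n)) := by
      subst hqm
      exact h3
    have h4 := hl _ (hreg.push h3')
    exact_mod_cast h4
  have hinv : ∀ (g : Fin n → G) (x : Fin n → Place k K1 × Place k K2),
      φ (J4.H82.CC.ga α1 α2 g g x) = φ x := by
    intro g x
    have h3 : (fun i => qm (J4.H82.CC.ga α1 α2 g g x i)) = fun i => qm (x i) := by
      funext i
      rw [hqm]
      exact (Quotient.sound (s := orb α1 α2)
        (show (orb α1 α2).r (x i) _ from ⟨g i, rfl⟩)).symm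
    change ((l (Finsupp.single ((fun i => qm (J4.H82.CC.ga α1 α2 g g x i)), p) 1) : ℚ) : k) = _
    rw [h3]
  have hfin := J4.H82.CC.conclusion α1 α2 hm hd1 hd2 (fun χ hχ => (h1.2 χ hχ).1)
    (fun χ hχ => (h2.2 χ hχ).1) hn hφ hinv (fun i => Finsupp.mapDomain r (a i)) (by
      intro i
      have h3 := ha i
      change (Finsupp.mapDomain r (a i)).sum (fun _ m => m) = 0
      rw [Finsupp.sum_mapDomain_index (fun _ => rfl) (fun _ _ _ => rfl)]
      exact h3)
  rw [key, map_altSum] at hfin
  have h4 : (fun i => Finsupp.mapDomain qm (Finsupp.mapDomain r (a i))) = a := by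
    funext i
    rw [← Finsupp.mapDomain_comp]
    have : qm ∘ r = id := funext hr
    rw [this, Finsupp.mapDomain_id]
  rw [h4] at hfin
  exact_mod_cast hfin

end Pool.Agent.Results.MP_386e47_ag.AlternatingPowers
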