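import Pool.Agent.J4.H82.CC.N

/-!
# Zero-cycles on products of cyclic covers of the projective line

Let `m = 2, 3` or `4`, let `ζ` be a primitive `m`-th root of unity in the algebraically closed field
`k` of characteristic zero and `E = ℚ(ζ)`. For every `a` in a finite set `Λ` let `C_a` be a smooth
projective curve with an action of the cyclic group `ℤ/m` such that `C_a / (ℤ/m)` is a rational curve,
and let `w_a` be a function on `C_a` on which the generator acts as multiplication by `ζ`, that is,
`C_a` (or its quotient by the kernel of the action) is the cyclic cover of the projective line with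
the equation `w_a ^ m = f_a`, where `f_a` is a rational function on the quotient. We consider the part
`h¹(C_a)_E` of the motive `h¹(C_a)` where the generator has the eigenvalues `ζ` and `ζ⁻¹`, a motive
with multiplication by `E`, and the motive

  `M = ⨂_a Λ^{n_a} h¹(C_a)_E ⊗ h(X)`,

where the exterior powers and the tensor product are taken over `E`, `n_a ≥ 0` are integers, and `X`
is any variety. It is the submotive of the motive of `∏ C_a ^ {n_a} × X` which is cut out by the
symmetric groups and by the character `ζ` and its inverse of all the groups `ℤ/m` which act on the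
factors. Its cohomology lies in the degrees `≥ N = ∑ n_a` only, it is `⨂_a Λ^{n_a} H¹(C_a)_E ⊗ H(X)`.

Let `p_a` and `q_a` be the dimensions of the spaces of the holomorphic differential forms on `C_a`
on which the generator acts as `ζ⁻¹` and as `ζ`. By the formula of Chevalley and Weil
`p_a + 1 = resid f_a / m` and `q_a + 1 = resid f_a⁻¹ / m`, where `resid f_a` is the sum of the
residues modulo `m` (between `0` and `m - 1`) of the orders of `f_a` at the points of the quotient.
There are no holomorphic `N`-forms in `⨂_a Λ^{n_a} H¹(C_a)_E` if and only if `n_a > p_a` for some `a`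
and `n_b > q_b` for some `b`. The theorem says that then `CH_0(M) = 0` (rational coefficients), if
`a = b` or the covers are balanced: `q_a ≤ p_a + 1` and `p_b ≤ q_b + 1` (this holds if
`|p_a - q_a| ≤ 1` for all `a`). The images of the points under the projector to `M` are the cycles
`isotypic`, up to a factor; we prove that they are torsion modulo rational equivalence.

By Mumford's theorem the conditions `n_a > p_a` and `n_b > q_b` cannot be weakened if `k` is the field
of the complex numbers.

Relation to the problem. Let all the data be defined over a number field `K` (the group `ℤ/m` has to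
be defined over `K` as a group scheme only, the coefficients are invariant under inversion), `k` an
algebraic closure of `K`, `X` smooth projective and `N ≥ 2`. Then `H^{2d-1}` and `H^{2d}` of the
product, `d` its dimension, have no part belonging to `M`, so that `V^{2n-1}(M) = 0`, all zero-cycles
on `M` are homologically trivial, and Q1 says that the Chow group `CH(M)` is zero. Since
`CH(M)` is contained in the Chow group of `M` over `k` for rational coefficients, it is zero by the
theorem: Q1 holds for all these motives.

The idea of the proof. A functional on the zero-cycles of `∏ C_a ^ {n_a}` which vanishes on the cycles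
rationally equivalent to zero is made symmetric and equivariant for the character `ζ`; then it
vanishes on the points with a coordinate over a branch point. Through a general point one
constructs a curve of configurations of points `x_a` on the projective lines, such that the product
of all the values of the functions `f_a` is an `m`-th power of a rational function of the parameter,
which has a coordinate at a branch point for a suitable parameter; this uses a partition of the
branch points into as many subsets as possible, such that the sum of the orders of the functions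
`f_a` at the points of each subset is divisible by `m` (if `m ≤ 4`, the number of these subsets
is the smaller of the sums of the numbers `resid f_a / m` and of the numbers `resid f_a⁻¹ / m`), and
polynomial identities of Lagrange interpolation. The functional is
locally constant along the curve and hence zero.
-/

set_option autoImplicit false

open FF IntermediateField

namespace Pool.Agent.Results.MP_386e47_ag.CyclicCovers

open Pool.Agent.J4.H17.ZC

section defs

variable (k : Type) [Field k]

/-- The curve with function field `F` is rational. -/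
def Rational (F : Type) [Field F] [Algebra k F] : Prop :=
  ∃ t : F, Transcendental k t ∧ Module.finrank k⟮t⟯ F = 1

/-- The sum of the residues modulo `m`, between `0` and `m - 1`, of the orders of the function `f`
at the points of the curve with function field `F`. -/
noncomputable def resid [CharZero k] {F : Type} [Field F] [Algebra k F] [IsFF k F] (m : ℕ)
    (f : F) : ℤ :=
  (divisor k f).sum fun _ n => n % m

/-- The product of the powers `C_a ^ {n_a}` of the curves with function fields `K a`. -/
abbrev powers {Λ : Type} (K : Λ → Type) [∀ a, Field (K a)] [∀ a, Algebra k (K a)]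
    (n : Λ → ℕ) : Var k where
  Pt := ∀ a, Fin (n a) → Place k (K a)
  IsMor L _ _ x := ∀ a i, (curve k (K a)).IsMor L (fun P => x P a i)

variable {k}

/-- The quotient of the curve with function field `F` by the action `β` of the group `ℤ/m` is a
rational curve, and the function `f` on the quotient is `w ^ m` for a nonzero function `w` on which
the generator acts as multiplication by `ζ`. -/
def Kummer (ζ : k) {F : Type} [Field F] [Algebra k F] {m : ℕ}
    (β : Multiplicative (ZMod m) →* (F ≃ₐ[k] F)) (f : fixedField β.range) : Prop :=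
  Rational k (fixedField β.range) ∧ ∃ w : F, w ≠ 0 ∧
    β (Multiplicative.ofAdd 1) w = algebraMap k F ζ * w ∧ (f : F) = w ^ m

/-- The condition on the integers `n_a` in terms of the numbers `r a = resid (f a)` and
`r' a = resid (f a)⁻¹`: for some `a` and `b`

* `n_a ≥ r a / m` (the number of the points is greater than the dimension `r a / m - 1` of the space
  of the holomorphic differential forms on `C_a` with character `ζ⁻¹`), and
* `n_b ≥ r' b / m` (the same for `b` and the character `ζ`), and
* `a = b`, or `r' a ≤ r a + m` and `r b ≤ r' b + m`. -/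
def Enough {Λ : Type} (m : ℕ) (r r' : Λ → ℤ) (n : Λ → ℕ) : Prop :=
  ∃ a b, r a ≤ m * n a ∧ r' b ≤ m * n b ∧ (a = b ∨ (r' a ≤ r a + m ∧ r b ≤ r' b + m))

/-- The number `ζ ^ j + ζ ^ (-j)` for a primitive `m`-th root of unity `ζ`, where `m = 2, 3, 4`: this
is `2` if `j = 0`, `-2` if `j = m / 2`, `-1` if `m = 3` and `j` is not `0`, and `0` if `m = 4` and `j`
is odd. -/
def tr (m : ℕ) (j : ZMod m) : ℤ :=
  if j.val = 0 then 2 else if 2 * j.val = m then -2 else if m = 3 then -1 else 0

/-- The image of the point `(x, p)` under the (unnormalized) projector to the isotypic part: the sum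
over the permutations `π` of the coordinates and the elements `j` of the groups acting on the
coordinates, with the coefficients `ζ ^ s + ζ ^ (-s)`, `s` the sum of the `j`. -/
noncomputable def isotypic {Λ : Type} [Fintype Λ] [DecidableEq Λ] {K : Λ → Type}
    [∀ a, Field (K a)] [∀ a, Algebra k (K a)] {m : ℕ} [NeZero m]
    (β : ∀ a, Multiplicative (ZMod m) →* (K a ≃ₐ[k] K a)) {n : Λ → ℕ} {A : Type}
    (x : ∀ a, Fin (n a) → Place k (K a)) (p : A) :
    ((∀ a, Fin (n a) → Place k (K a)) × A) →₀ ℤ :=
  ∑ π : (∀ a, Equiv.Perm (Fin (n a))), ∑ j : (∀ a, Fin (n a) → ZMod m),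
    tr m (∑ a, ∑ i, j a i) • Finsupp.single
      ((fun a i => act (β a (Multiplicative.ofAdd (j a i))) (x a (π a i))), p) 1

end defs

/-- **Theorem.** Let `m = 2, 3` or `4` and let `ζ` be a primitive `m`-th root of unity in the
algebraically closed field `k` of characteristic zero. For `a` in the finite set `Λ` let `C_a` be a
smooth projective curve (given by its function field `K a`) with an action `β a` of the group `ℤ/m`
such that the quotient is a rational curve, and let `f a` be the function `w_a ^ m` on the quotient,
where `w_a` is a nonzero function on which the generator acts as multiplication by `ζ`. Let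
`n_a ≥ 0` be integers which satisfy the condition `Enough` and let `X` be a variety. Then for all
points `x` of `∏ C_a ^ {n_a}` and `p` of `X` a positive multiple of the cycle `isotypic x p` is
rationally equivalent to zero on `∏ C_a ^ {n_a} × X`. -/
theorem result {k : Type} [Field k] [CharZero k] [IsAlgClosed k] {m : ℕ} [NeZero m]
    (hm : m = 2 ∨ m = 3 ∨ m = 4) {ζ : k} (hζ : IsPrimitiveRoot ζ m)
    {Λ : Type} [Fintype Λ] [DecidableEq Λ] (K : Λ → Type) [∀ a, Field (K a)]
    [∀ a, Algebra k (K a)] [∀ a, IsFF k (K a)]
    (β : ∀ a, Multiplicative (ZMod m) →* (K a ≃ₐ[k] K a)) [∀ a, IsFF k (fixedField (β a).range)]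
    (f : ∀ a, fixedField (β a).range) (hf : ∀ a, Kummer ζ (β a) (f a)) (n : Λ → ℕ)
    (hn : Enough m (fun a => resid k m (f a)) (fun a => resid k m (f a)⁻¹) n)
    (X : Var k) (hX : ∀ (L : Type) [Field L] [Algebra k L] (p : X.Pt), X.IsMor L fun _ => p)
    (x : ∀ a, Fin (n a) → Place k (K a)) (p : X.Pt) :
    ∃ N : ℕ, 0 < N ∧ N • isotypic β x p ∈ RatEq ((powers k K n).prod X) := by
  obtain ⟨a0, a1, h0, h1, h01⟩ := hn
  have hrat : ∀ a, Rational k (fixedField (β a).range) := fun a => (hf a).1
  have hf' : ∀ a, ∃ w : K a, w ≠ 0 ∧
    β a (Multiplicative.ofAdd 1) w = algebraMap k (K a) ζ * w ∧ (f a : K a) = w ^ m :=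
    fun a => (hf a).2
  clear hf
  choose w hw0 hw hf using hf'
  classical
  have hm0 : 0 < m := by omega
  let u : kˣ := (hζ.isUnit (NeZero.ne m)).unit
  have huζ : (u : k) = ζ := rfl
  have hu : u ^ m = 1 := by
    ext
    rw [Units.val_pow_eq_pow_val, huζ, hζ.pow_eq_one, Units.val_one]
  let χ : Multiplicative (ZMod m) →* kˣ := J4.H82.CC.zhom u hu
  have hs : ∀ a, J4.H82.CC.Semi (β a) χ m (f a) := fun a =>
    J4.H82.CC.semi_of hu (hw0 a) (hw a) (hf a)
  have hχ1 : χ (Multiplicative.ofAdd 1) ≠ 1 := by
    intro h
    have h2 : u ^ (1 : ZMod m).val = 1 := h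
    rw [ZMod.val_one'' (by omega), pow_one] at h2
    exact hζ.ne_one (by omega) (by rw [← huζ, h2, Units.val_one])
  have hr : ∀ a, resid k m (f a) = ∑ v ∈ J4.H82.CC.Brm (k := k) m (f a), v.ord (f a) % m :=
    fun a => J4.H82.CC.resid_eq m (f a)
  have hr' : ∀ a, resid k m (f a)⁻¹ =
      ∑ v ∈ J4.H82.CC.Brm (k := k) m (f a), (-v.ord (f a)) % m :=
    fun a => J4.H82.CC.resid_inv m (f a)
  have hbinv : ∀ a, J4.H82.CC.Brm (k := k) m (f a)⁻¹ = J4.H82.CC.Brm (k := k) m (f a) :=
    fun a => J4.H82.CC.brm_inv m (f a)
  have hi1 : ∀ a, ∑ v ∈ J4.H82.CC.Brm (k := k) m (f a)⁻¹, v.ord (f a)⁻¹ % (m : ℤ) =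
      ∑ v ∈ J4.H82.CC.Brm (k := k) m (f a), (-v.ord (f a)) % m := by
    intro a
    rw [hbinv]
    exact Finset.sum_congr rfl fun v _ => by rw [v.ord_inv]
  have hi2 : ∀ a, ∑ v ∈ J4.H82.CC.Brm (k := k) m (f a)⁻¹, (-v.ord (f a)⁻¹) % (m : ℤ) =
      ∑ v ∈ J4.H82.CC.Brm (k := k) m (f a), v.ord (f a) % m := by
    intro a
    rw [hbinv]
    exact Finset.sum_congr rfl fun v _ => by rw [v.ord_inv, neg_neg]
  have hreg : Reg (X := J4.H82.CC.bigV k K fun a => Fin (n a)) (Y := (powers k K n).prod X)
      (fun y => (y, p)) := by
    intro L _ _ y hy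
    exact ⟨hy, hX L p⟩
  refine torsion_of_hom _ _ fun l hl => ?_
  let lk : (((powers k K n).prod X).Pt →₀ ℤ) →+ k := (Rat.castHom k).toAddMonoidHom.comp l
  have hlk : ∀ r ∈ RatEq ((powers k K n).prod X), lk r = 0 := by
    intro r hr
    change ((l r : ℚ) : k) = 0
    rw [hl r hr, Rat.cast_zero]
  have hA := J4.H82.CC.twisted K β (fun a => Fin (n a)) hrat (fun _ => χ) hm f hs
    (fun _ => ⟨_, hχ1⟩) a0 a1 (by rw [← hr, Fintype.card_fin]; exact h0)
    (by rw [← hr', Fintype.card_fin]; exact h1)
    (by rw [← hr, ← hr', ← hr, ← hr']; exact h01) (Y := (powers k K n).prod X)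
    (fun y => (y, p)) hreg lk hlk x
  have hB := J4.H82.CC.twisted K β (fun a => Fin (n a)) hrat (fun _ => χ⁻¹) hm
    (fun a => (f a)⁻¹) (fun a => (hs a).inv) (fun _ => ⟨_, by
      rw [MonoidHom.inv_apply, inv_ne_one]; exact hχ1⟩) a1 a0
    (by rw [hi1, ← hr', Fintype.card_fin]; exact h1)
    (by rw [hi2, ← hr, Fintype.card_fin]; exact h0)
    (by
      rw [hi1, hi2, hi1, hi2, ← hr, ← hr', ← hr, ← hr']
      rcases h01 with h | ⟨h, h'⟩
      · exact Or.inl h.symm
      · exact Or.inr ⟨h', h⟩) (Y := (powers k K n).prod X)
    (fun y => (y, p)) hreg lk hlk x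
  have hprod : ∀ g : (∀ a, Fin (n a) → Multiplicative (ZMod m)),
      ∏ a, ∏ i, ((χ (g a i) : kˣ) : k) =
        ζ ^ (∑ a, ∑ i, Multiplicative.toAdd (g a i) : ZMod m).val := by
    intro g
    have h2 : ∏ a, ∏ i, χ (g a i) = χ (∏ a, ∏ i, g a i) := by
      rw [map_prod]
      exact Finset.prod_congr rfl fun a _ => (map_prod χ _ _).symm
    have h3 : ∏ a, ∏ i, ((χ (g a i) : kˣ) : k) = ((∏ a, ∏ i, χ (g a i) : kˣ) : k) := by
      rw [Units.coe_prod]
      exact Finset.prod_congr rfl fun a _ => (Units.coe_prod _ _).symm
    rw [h3, h2]
    change ((u ^ (Multiplicative.toAdd (∏ a, ∏ i, g a i)).val : kˣ) : k) = _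
    rw [Units.val_pow_eq_pow_val, huζ, toAdd_prod]
    congr 3
  have hprod' : ∀ g : (∀ a, Fin (n a) → Multiplicative (ZMod m)),
      ∏ a, ∏ i, ((χ⁻¹ (g a i) : kˣ) : k) =
        (ζ ^ (∑ a, ∑ i, Multiplicative.toAdd (g a i) : ZMod m).val)⁻¹ := by
    intro g
    rw [← hprod, ← Finset.prod_inv_distrib]
    refine Finset.prod_congr rfl fun a _ => ?_
    rw [← Finset.prod_inv_distrib]
    refine Finset.prod_congr rfl fun i _ => ?_
    rw [MonoidHom.inv_apply, Units.val_inv_eq_inv_val]
  have hfin : ((l (isotypic β x p) : ℚ) : k) = 0 := by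
    have h2 : ((l (isotypic β x p) : ℚ) : k) = ∑ π : (∀ a, Equiv.Perm (Fin (n a))),
        ∑ j : (∀ a, Fin (n a) → ZMod m), (tr m (∑ a, ∑ i, j a i) : k) *
          lk (Finsupp.single ((fun a i => act (β a (Multiplicative.ofAdd (j a i)))
            (x a (π a i))), p) 1) := by
      unfold isotypic
      rw [map_sum, Rat.cast_sum]
      refine Finset.sum_congr rfl fun π _ => ?_
      rw [map_sum, Rat.cast_sum]
      refine Finset.sum_congr rfl fun j _ => ?_
      rw [map_zsmul, zsmul_eq_mul, Rat.cast_mul, Rat.cast_intCast]
      rfl
    have h3 := congrArg₂ (· + ·) hA hB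
    rw [add_zero] at h3
    rw [h2, ← h3]
    change _ = _ + _
    rw [← Finset.sum_add_distrib]
    refine Finset.sum_congr rfl fun π _ => ?_
    rw [← Finset.sum_add_distrib]
    refine Fintype.sum_equiv (Equiv.piCongrRight fun a => Equiv.piCongrRight fun i =>
      (Multiplicative.ofAdd : ZMod m ≃ Multiplicative (ZMod m))) _ _ fun j => ?_
    have h4 := J4.H82.CC.trc_eq hm hζ (∑ a, ∑ i, j a i)
    have h5 := hprod (fun a i => Multiplicative.ofAdd (j a i))
    have h6 := hprod' (fun a i => Multiplicative.ofAdd (j a i))
    change (J4.H82.CC.trc m (∑ a, ∑ i, j a i) : k) * _ = _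
    rw [h4]
    change _ = (∏ a, ∏ i, ((χ (Multiplicative.ofAdd (j a i)) : kˣ) : k))⁻¹ *
        lk (Finsupp.single ((fun a i => act (β a (Multiplicative.ofAdd (j a i)))
            (x a (π a i))), p) 1) +
      (∏ a, ∏ i, ((χ⁻¹ (Multiplicative.ofAdd (j a i)) : kˣ) : k))⁻¹ *
        lk (Finsupp.single ((fun a i => act (β a (Multiplicative.ofAdd (j a i)))
            (x a (π a i))), p) 1)
    rw [h5, h6, inv_inv, ← add_mul, add_comm]
    rfl
  exact_mod_cast hfin

end Pool.Agent.Results.MP_386e47_ag.CyclicCovers
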