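import Pool.Agent.J4.H71.IR.D

/-!
# Rational product cycles on products of curves: a rank bound with the isotypic parts of the Jacobian

Let `C_1, …, C_n` be smooth projective curves over a number field, `n ≥ 2`, and let
`M = h¹(C_1) ⊗ … ⊗ h¹(C_n) (n)`. The cohomology of `M` is in degree `-n` only (as the part of
`H^{2n}(∏ C_i) (n)` and `H^{2n-1}(∏ C_i) (n)` belonging to `M` is zero), so that Q1 (the injectivity
of the `p`-adic Abel-Jacobi map) says for `M` that `CH(M)`, a group of zero-cycles on `∏ C_i` up to
torsion, is zero. It contains the exterior products `a_1 × … × a_n` of divisors `a_i` of degree zero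
on `C_i`. We prove that these are torsion if `n` is large compared to the ranks of the groups in
which the `a_i` are, where every isotypic part of the Jacobian for the action of a finite group
counts with the dimension of its own space of holomorphic differential forms.

Let `C` be a curve over the algebraically closed field `k` of characteristic zero (for instance the
field of the algebraic numbers).

(1) Let `b_j` be finitely many divisors with coefficients in `k` on `C`, which are, up to rational
equivalence, of the form `∑ χ_j(h)⁻¹ h(D_j)`, the sum over a finite group `H_j` acting on `C`, `χ_j` a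
homomorphism from `H_j` to `kˣ`, of any order (for example: `h(b_j) ~ χ_j(h) b_j` for all `h`). Let
`a_i` be divisors on `C_i`, which are linear combinations over `k` of divisors rationally equivalent
to zero and of images `f_* b_j` under morphisms `f : C → C_i`. If `n > ∑ ν_j` then `a_1 × … × a_n` is
torsion in the Chow group. Here `ν_j` is the genus of `C/H_j` if `χ_j = 1`, and if `χ_j ≠ 1` it is the
genus of `C / ker χ_j` or, if the branch data are balanced, `g - 1 + r`, where `g` is the genus of
`C/H_j` and `2 r > 0` is the number of branch points belonging to `χ_j` (definition `Balanced`): by the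
formula of Chevalley and Weil this is the dimension of the space of the holomorphic differential
forms on `C` on which `H_j` acts by `χ_j` (and also by its complex conjugate).

(2) Let a finite abelian group `G` act on `C` and let `W` be a `G`-stable space of divisors of
degree zero with coefficients in `k`, of finite dimension modulo rational equivalence. Let `r_χ` be
the dimension of the `χ`-isotypic part of the space of the classes and let `ν_χ` be a bound as in (1).
Then the same holds for linear combinations `a_i` of images of elements of `W` if `n > ∑ ν_χ r_χ`.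

Example. Let `F` be a number field, let `G` act on `C` over `F` and take for `W` the space generated by
the divisors of degree zero defined over `F`, so that `r_χ` is the dimension of the isotypic part of
`J(C)(F) ⊗ k`, and `∑ r_χ` is the rank of `J(C)(F)`. If all branch data are balanced, then all exterior
products of `n > ∑ h¹⁰_χ r_χ` such divisors are torsion, while the bound without group actions
(RankBound of a teammate for MP_e28333_ag) is `n > (∑ h¹⁰_χ) (∑ r_χ)`. For the cyclic covers
`y ^ m = ∏ ((x - a_i) / (x - b_i)) ^ {s_i}`, `i = 1, …, r`, with `s_i` prime to `m` and `F` containing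
the `m`-th roots of unity, the condition is `n > (r - 1) rk J(F)`, better by the factor `m - 1`.

The vanishing theorem for balanced characters over an arbitrary base curve (symmetrized products of
`g + r` isotypic zero-cycles are torsion) is due to a teammate (helper18, files `J4/H18/CV`, on
the libraries `J4/H82/PV` of helper82 and `J4/H17/ZC` of helper17); the special case of characters with
values in `{1, -1}` is PrymRankBound of helper82 (MP_e28333_ag).
-/

set_option autoImplicit false

open FF IntermediateField

namespace Pool.Agent.Results.MP_386e47_ag.IsotypicRankBound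

open Pool.Agent.J4.H17.ZC Pool.Agent.J4.H27.BB

section defs

variable {k : Type} [Field k]

/-- A divisor (or zero-cycle) with integral coefficients as one with coefficients in `k`. -/
noncomputable def toK {A : Type} (z : A →₀ ℤ) : A →₀ k :=
  Finsupp.mapRange (fun n : ℤ => (n : k)) Int.cast_zero z

/-- The degree of a divisor with coefficients in `k`. -/
noncomputable def degK {A : Type} (z : A →₀ k) : k := z.sum fun _ c => c

variable {K : Type} [Field K] [Algebra k K] {H : Type} [Group H]

/-- The space of the divisors with coefficients in `k` rationally equivalent to zero: it is spanned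
by the divisors with integral coefficients rationally equivalent to zero. -/
noncomputable def ratK (k : Type) [Field k] [CharZero k] (K : Type) [Field K] [Algebra k K] :
    Submodule k (Place k K →₀ k) :=
  Submodule.span k {z | ∃ r ∈ RatEq (curve k K), z = toK r}

/-- The space of divisors on the curve with function field `K'` which is spanned by the divisors
rationally equivalent to zero and by the images of the divisors in the set `S` on the curve with
function field `K` under all morphisms. -/
noncomputable def images (k : Type) [Field k] [CharZero k] {K : Type} [Field K] [Algebra k K]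
    (K' : Type) [Field K'] [Algebra k K'] (S : Set (Place k K →₀ k)) :
    Submodule k (Place k K' →₀ k) :=
  Submodule.span k ({z | ∃ r ∈ RatEq (curve k K'), z = toK r} ∪
    {z | ∃ b ∈ S, ∃ f : Place k K → Place k K', (curve k K').IsMor K f ∧
      z = Finsupp.mapDomain f b})

/-- The sum of the divisors `χ(h)⁻¹ h(D)` for the elements `h` of the finite group `H`, which acts on
the curve by `β`. -/
noncomputable def twist [Fintype H] (β : H →* (K ≃ₐ[k] K)) (χ : H →* kˣ) (D : Place k K →₀ k) :
    Place k K →₀ k :=
  ∑ h : H, (((χ h)⁻¹ : kˣ) : k) • Finsupp.mapDomain (act (β h)) D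

/-- The number `ν` for a character `χ` with balanced branch points: `ν + 1 = g + r`, `g` the genus of
`C/H`, if `w` is a nonzero function with `h w = χ(h) w`, `w ^ m = f` is a function on `C/H`, and the
points of `C/H` at which the order of `f` is not divisible by `m` can be divided into `r ≥ 1` pairs
such that the sum of the two orders is divisible by `m`. -/
def Balanced (β : H →* (K ≃ₐ[k] K)) (χ : H →* kˣ) (ν : ℕ) : Prop :=
  ∃ (g r m : ℕ) (w : K) (f : fixedField β.range)
    (b : Fin r × Bool → Place k (fixedField β.range)),
    HasGenus k (fixedField β.range) g ∧ 0 < r ∧ ν + 1 = g + r ∧ 0 < m ∧ w ≠ 0 ∧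
    (∀ h, β h w = algebraMap k K (χ h) * w) ∧ w ^ m = (f : K) ∧ Function.Injective b ∧
    (∀ v : Place k (fixedField β.range), ¬ (m : ℤ) ∣ v.ord f ↔ ∃ j, b j = v) ∧
    ∀ j : Fin r, (m : ℤ) ∣ (b (j, false)).ord f + (b (j, true)).ord f

/-- The bound `ν` for a character `χ`: the genus of `C/H` if `χ = 1`; the genus of `C/ker χ` or the
number `Balanced` if `χ ≠ 1`. -/
def CharBound (β : H →* (K ≃ₐ[k] K)) (χ : H →* kˣ) (ν : ℕ) : Prop :=
  (χ = 1 ∧ HasGenus k (fixedField β.range) ν) ∨
    (χ ≠ 1 ∧ (HasGenus k (fixedField (χ.ker.map β)) ν ∨ Balanced β χ ν))

/-- `ν` is a bound for the divisor `b` with coefficients in `k`: up to rational equivalence `b` is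
the sum of the divisors `χ(h)⁻¹ h(D)` for a finite group acting on the curve, a character `χ` with
the bound `ν` and a divisor `D`, of degree zero if `χ = 1`. -/
def IsoBound (k : Type) [Field k] [CharZero k] {K : Type} [Field K] [Algebra k K]
    (b : Place k K →₀ k) (ν : ℕ) : Prop :=
  ∃ (H : Type) (_ : Group H) (_ : Fintype H) (β : H →* (K ≃ₐ[k] K)) (χ : H →* kˣ)
    (D : Place k K →₀ k), (χ = 1 → degK D = 0) ∧ b - twist β χ D ∈ ratK k K ∧ CharBound β χ ν

/-- The divisors in the space `W` on whose classes the group `G` acts by the character `χ`. -/
def isotypic [CharZero k] {G : Type} [Group G] (β : G →* (K ≃ₐ[k] K))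
    (W : Submodule k (Place k K →₀ k)) (χ : G →* kˣ) : Submodule k (Place k K →₀ k) where
  carrier := {z | z ∈ W ∧
    ∀ g, Finsupp.mapDomain (act (β g)) z - ((χ g : kˣ) : k) • z ∈ ratK k K}
  zero_mem' := (Pool.Agent.J4.H71.IR.isotypic β W χ).zero_mem
  add_mem' := (Pool.Agent.J4.H71.IR.isotypic β W χ).add_mem
  smul_mem' := fun c _ hx => (Pool.Agent.J4.H71.IR.isotypic β W χ).smul_mem c hx

/-- The dimension of the space of the classes (modulo rational equivalence) of the divisors in `W`
on which the group `G` acts by the character `χ`. -/
noncomputable def isoDim [CharZero k] {G : Type} [Group G] (β : G →* (K ≃ₐ[k] K))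
    (W : Submodule k (Place k K →₀ k)) (χ : G →* kˣ) : ℕ :=
  Module.finrank k ((isotypic β W χ).map (ratK k K).mkQ)

end defs

theorem degK_eq {k A : Type} [Field k] (z : A →₀ k) : degK z = Pool.Agent.J4.H71.IR.dgK z := by
  unfold degK Pool.Agent.J4.H71.IR.dgK
  rw [Finsupp.linearCombination_apply]
  exact Finsupp.sum_congr fun _ _ => by rw [smul_eq_mul, mul_one]

/-- The exterior product of `n` divisors on the curves `C_i` (with function fields `K' i`) is a
zero-cycle with trivial images in all the curves `C_i` (if `n ≥ 2`), and a torsion element of the Chow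
group, (1) if the `a i` are in the spaces spanned by the divisors rationally equivalent to zero and
the images of the divisors `b j` with bounds `ν j`, `∑ ν j < n`, on the curve `C` (with function field
`K`); (2) if they are in the spaces spanned by the divisors rationally equivalent to zero and the
images of the elements of a `G`-stable space `W` of divisors of degree zero on `C`, of finite dimension
modulo rational equivalence, where the finite abelian group `G` acts on `C` and the sum over the
characters `χ` of the products of the bound `ν χ` and of the dimension of the `χ`-isotypic part of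
the space of the classes of the elements of `W` is less than `n`. -/
theorem result {k : Type} [Field k] [IsAlgClosed k] [CharZero k] (K : Type) [Field K]
    [Algebra k K] [IsFF k K] (n : ℕ) (K' : Fin n → Type) [∀ i, Field (K' i)]
    [∀ i, Algebra k (K' i)] [∀ i, IsFF k (K' i)] (a : ∀ i, Place k (K' i) →₀ ℤ)
    (h : (∃ (s : ℕ) (b : Fin s → Place k K →₀ k) (ν : Fin s → ℕ),
        (∀ j, IsoBound k (b j) (ν j)) ∧ ∑ j, ν j < n ∧
        ∀ i, toK (a i) ∈ images k (K' i) (Set.range b)) ∨
      ∃ (G : Type) (_ : CommGroup G) (_ : Fintype G) (_ : Fintype (G →* kˣ))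
        (β : G →* (K ≃ₐ[k] K)) (W : Submodule k (Place k K →₀ k)) (ν : (G →* kˣ) → ℕ),
        (∀ g, ∀ z ∈ W, Finsupp.mapDomain (act (β g)) z ∈ W) ∧ (∀ z ∈ W, degK z = 0) ∧
        Module.Finite k (W.map (ratK k K).mkQ) ∧
        (∀ χ, isoDim β W χ = 0 ∨ CharBound β χ (ν χ)) ∧ ∑ χ, ν χ * isoDim β W χ < n ∧
        ∀ i, toK (a i) ∈ images k (K' i) (W : Set (Place k K →₀ k))) :
    (2 ≤ n → ∀ i, Finsupp.mapDomain (fun x : ∀ i, Place k (K' i) => x i) (prodCycle a) = 0) ∧
    ∃ N : ℕ, 0 < N ∧ N • prodCycle a ∈ RatEq (varPi fun i => curve k (K' i)) := by
  rcases h with ⟨s, b, ν, hb, hn, ha⟩ | ⟨G, _, _, _, β, W, ν, hst, h0, hfin, hν, hn, ha⟩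
  · refine Pool.Agent.J4.H71.IR.iso_main b ν (fun j => ?_) hn K' a ha
    obtain ⟨H, i1, i2, β, χ, D, hD, h1, h2⟩ := hb j
    exact ⟨H, i1, i2, β, χ, D, fun hχ => by rw [← degK_eq]; exact hD hχ, h1, h2⟩
  · exact Pool.Agent.J4.H71.IR.stable_main β W hst (fun z hz => by rw [← degK_eq]; exact h0 z hz)
      hfin ν hν hn K' a ha

end Pool.Agent.Results.MP_386e47_ag.IsotypicRankBound
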