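import Pool.Agent.J4.H20.SM.Fun

/-!
# Zero-cycles on the motives cut out by arbitrary symmetries of products of powers of curves

Let `k` be an algebraically closed field of characteristic zero. For `a` in a finite set `Λ` let
`C_a` be a smooth projective curve with an action `β_a` of a finite group `H_a`, and `χ_a` a
homomorphism from `H_a` to `{1, -1}`. Let `P_a` be the `χ_a`-part of the motive `h¹(C_a)`: the motive
of the Jacobian variety of `C_a / H_a` if `χ_a = 1`, otherwise the motive of the Prym variety of the
double cover from `C_a / ker χ_a` to `C_a / H_a`. Let `ν_a` be its dimension, that is, the dimension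
of the space of the holomorphic differential forms on `C_a` with the character `χ_a` (see `Bound`;
for `χ_a ≠ 1` we need that `ν_a = 0`, or that the double cover has branch points, or that
`C_a / H_a` has a function of degree two. In general, `ν_a` can be replaced by the genus of
`C_a / ker χ_a`). The same curve can appear for several `a`.

Let `n_a ≥ 0` be integers, `N = ∑ n_a`, and let `c` be an arbitrary element of the group ring of the
product of the symmetric groups of degrees `n_a`. We consider the motive `M` which is cut out by `c`
from `⨂_a P_a ^ (⊗ n_a) ⊗ h(X)`, where `X` is any variety; for example, tensor products of arbitrary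
Schur functors of the `P_a`, exterior and symmetric powers of such tensor products, etc. The part of
its cohomology which comes from the holomorphic `N`-forms is given by the image of `c` in
`⨂_a H⁰(P_a) ^ (⊗ n_a)`, where `H⁰(P_a)` is the space of dimension `ν_a` of the differential forms
and the permutations act with a sign, as these are odd classes.

The theorem says that if `c` acts as zero on this tensor product (`Kills`), that is, if there are no
holomorphic `N`-forms, then `CH₀(M) = 0` with rational coefficients. By Mumford's theorem this
condition is also necessary if `k` is the field of the complex numbers. Examples: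

* one curve, `c = ∑ π`: the symmetrized products of `n > ν` cycles (Bloch);
* `C_1, ..., C_d` and `n_a = n` for all `a`, `c = ∑ sgn(π) ^ (d - 1) (π, ..., π)`: this is the
  conjecture of Voisin for `n > p_g = ν_1 ⋯ ν_d` zero-cycles on the `d`-dimensional variety
  `C_1 × ... × C_d`, for all `d` (for the cycles which are exterior products of cycles of degree
  zero, and their sums);
* one curve and `n m` points: the same for the symmetric power `Sym^m C` and `n > binom g m`.

Relation to the problem. Let all the data be defined over a number field `K`, `k` an algebraic
closure of `K`, `X` smooth projective and `N ≥ 2`. Then the part of `M` in the cohomology of the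
degrees `2d - 1` and `2d`, `d` the dimension of the product, is zero, so that `V^{2n-1}(M) = 0`, all
zero-cycles on `M` are homologically trivial, and Q1 says that the Chow group `CH(M)` is zero. It is
contained in the Chow group of `M` over `k` for rational coefficients, which is zero by the theorem
if there are no holomorphic `N`-forms: Q1 holds for all these motives.

The proof has two parts. The relations for one curve `C_a` and `ν_a + 1` points are the theorem of
Bloch and its variant for Prym varieties (the operator of a part satisfies `Van`, in the library of a
teammate). A functional on the zero-cycles which vanishes on the cycles rationally equivalent to zero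
gives a function on the product of the symmetric groups, whose sums over the permutations of
`ν_a + 1` elements of a block vanish. The core lemma says that such functions are orthogonal to
all `c` which kill the tensors: otherwise there is a nonzero function `v` in the image of `c` which is
alternating for the permutations preserving a colouring of the block `a` with `ν_a` colours, for all
`a`, and then `∑ v ^ 2 = 0`, since the matrix coefficients of `c` vanish.
-/

set_option autoImplicit false

open FF IntermediateField Equiv

namespace Pool.Agent.Results.MP_386e47_ag.SchurMotives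

open Pool.Agent.J4.H17.ZC Pool.Agent.J4.H27.BB Pool.Agent.J4.H82.PV Pool.Agent.J4.H20.SM

section defs

variable {k : Type} [Field k] {K : Type} [Field K] [Algebra k K] {H : Type} [Group H]

/-- The sum of the divisors `χ(h) h(D)` for the elements `h` of the finite group `H`, which acts on
the curve by `β`: the image of `D` in the part of the curve given by the character `χ`. -/
noncomputable def part [Fintype H] (β : H →* (K ≃ₐ[k] K)) (χ : H →* ℤˣ) (D : Place k K →₀ ℤ) :
    Place k K →₀ ℤ :=
  ∑ h : H, ((χ h : ℤˣ) : ℤ) • Finsupp.mapDomain (act (β h)) D

/-- The curve with function field `L` has a function of degree two: it is a rational curve, a curve of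
genus one or a hyperelliptic curve. -/
def DegreeTwo (k L : Type) [Field k] [Field L] [Algebra k L] : Prop :=
  ∃ t : L, Transcendental k t ∧ Module.finrank k⟮t⟯ L = 2

/-- The number `ν` for a character `χ` of the group `H` acting on the curve `C`: the genus of `C/H`
for `χ = 1`. For `χ ≠ 1` it is the difference of the genera of `C/ker χ` and `C/H`, the dimension of
the Prym variety of this double cover, if the difference is zero or the double cover has branch
points or `C/H` has a function of degree two; or it is the genus of `C/ker χ`. -/
def Bound (β : H →* (K ≃ₐ[k] K)) (χ : H →* ℤˣ) (ν : ℕ) : Prop :=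
  (χ = 1 ∧ HasGenus k (fixedField β.range) ν) ∨
  (χ ≠ 1 ∧ HasGenus k (fixedField (χ.ker.map β)) ν) ∨
  (χ ≠ 1 ∧ ∃ g, HasGenus k (fixedField β.range) g ∧ HasGenus k (fixedField (χ.ker.map β)) (g + ν) ∧
    (ν = 0 ∨ (∃ (h : H) (P : Place k K), χ h = -1 ∧ act (β h) P = P) ∨
      DegreeTwo k (fixedField β.range)))

end defs

section proofs

variable {k : Type} [Field k] [CharZero k] [IsAlgClosed k] {K : Type} [Field K] [Algebra k K]
  [IsFF k K] {H : Type} [Group H] [Fintype H]

omit [CharZero k] [IsAlgClosed k] [IsFF k K] in
theorem part_eq (β : H →* (K ≃ₐ[k] K)) (χ : H →* ℤˣ)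
    (D : Place k K →₀ ℤ) : part β χ D = Finsupp.linearCombination ℤ (ex β χ) D := by
  induction D using Finsupp.induction_linear with
  | zero =>
    unfold part
    simp
  | add u v hu hv =>
    rw [map_add, ← hu, ← hv]
    unfold part
    rw [← Finset.sum_add_distrib]
    refine Finset.sum_congr rfl fun h _ => ?_
    rw [Finsupp.mapDomain_add, smul_add]
  | single P c =>
    rw [Finsupp.linearCombination_single]
    unfold part ex
    rw [Finset.smul_sum]
    refine Finset.sum_congr rfl fun h _ => ?_
    rw [Finsupp.mapDomain_single, smul_comm, Finsupp.smul_single c, smul_eq_mul, mul_one]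

/-- The operator of the part satisfies the vanishing theorem. -/
theorem exists_van (β : H →* (K ≃ₐ[k] K)) (χ : H →* ℤˣ) {ν : ℕ} (h : Bound β χ ν) :
    ∃ e : Place k K → (Place k K →₀ ℤ), Van k e ν ∧ ∀ D : Place k K →₀ ℤ,
      (χ = 1 → D.sum (fun _ m => m) = 0) → part β χ D = Finsupp.linearCombination ℤ e D := by
  classical
  have h5 : Fintype χ.ker := Fintype.ofFinite _
  have hr2 : (β.comp χ.ker.subtype).range = χ.ker.map β := by
    rw [MonoidHom.range_comp, Subgroup.range_subtype]
  rcases h with ⟨h1, h3⟩ | ⟨h1, h2⟩ | ⟨h1, g, h2, h3, h4⟩
  · subst h1
    obtain ⟨o, -⟩ := exists_place (k := k) (K := K)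
    refine ⟨fun P => ex β 1 P - ex β 1 o, van_one β h3 o, fun D hD => ?_⟩
    have h7 : ∀ E : Place k K →₀ ℤ,
        Finsupp.linearCombination ℤ (fun P => ex β 1 P - ex β 1 o) E =
        Finsupp.linearCombination ℤ (ex β 1) E - dg E • ex β 1 o := by
      intro E
      induction E using Finsupp.induction_linear with
      | zero => simp
      | add u v hu hv =>
        rw [map_add, hu, hv, map_add, map_add, add_smul]
        abel
      | single P c =>
        rw [Finsupp.linearCombination_single, Finsupp.linearCombination_single, dg_single,
          smul_sub]
    rw [h7, dg_eq_sum, hD rfl, zero_smul, sub_zero, part_eq]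
  · exact ⟨ex β χ, van_ker β χ (by rw [hr2]; exact h2) h1, fun D _ => part_eq β χ D⟩
  · refine ⟨ex β χ, ?_, fun D _ => part_eq β χ D⟩
    rcases h4 with h4 | ⟨h, P, hh, hP⟩ | ⟨t, ht, ht2⟩
    · subst h4
      exact van_char_zero β χ h2 (by rw [hr2]; exact h3) h1
    · exact van_char β χ h2 (by rw [hr2]; exact h3) hh hP
    · exact van_char_hyper β χ h2 (by rw [hr2]; exact h3) h1 ht ht2

end proofs

/-- **Theorem.** For `a` in the finite set `Λ` let `C_a` be a smooth projective curve (given by its
function field `K a`) over the algebraically closed field `k` of characteristic zero, with an action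
of a finite group `H a` and a homomorphism `χ a` from `H a` to `{1, -1}`, and let `ν a` be the
dimension of the corresponding part of the space of the holomorphic differential forms (`Bound`).
Let `n a ≥ 0` be integers and let `c` be an element of the group ring of the product `Gr n` of the
symmetric groups of degrees `n a` which acts as zero on the tensor product of the tensor powers
`(k ^ ν a) ^ (⊗ n a)`, with the action of the permutations twisted by their signs (`Kills`). Let
`D a i`, `1 ≤ i ≤ n a`, be zero-cycles on `C_a`, of degree zero if `χ a = 1`, and let `p` be a point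
of a variety `X`. Then a positive multiple of the image under `c` of the exterior product of the
images of the `D a i` in the parts given by the characters and of `p` is rationally equivalent to
zero on the product of the `C_a ^ (n a)` and of `X`. -/
theorem result {k : Type} [Field k] [IsAlgClosed k] [CharZero k] {Λ : Type} [Fintype Λ]
    [DecidableEq Λ] (K : Λ → Type) [∀ a, Field (K a)] [∀ a, Algebra k (K a)] [∀ a, IsFF k (K a)]
    (H : Λ → Type) [∀ a, Group (H a)] [∀ a, Fintype (H a)] (β : ∀ a, H a →* (K a ≃ₐ[k] K a))
    (χ : ∀ a, H a →* ℤˣ) (ν : Λ → ℕ) (hν : ∀ a, Bound (β a) (χ a) (ν a)) (n : Λ → ℕ)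
    (c : Gr n → ℤ) (hc : Kills ν c) (X : Var k) (hX : X.Const)
    (D : ∀ a, Fin (n a) → (Place k (K a) →₀ ℤ))
    (hD : ∀ a, χ a = 1 → ∀ i, (D a i).sum (fun _ m => m) = 0) (p : X.Pt) :
    ∃ N : ℕ, 0 < N ∧ N • ∑ π : Gr n, c π • Finsupp.mapDomain (fun x => (x, p))
      (extP fun s : Σ a, Fin (n a) => part (β s.1) (χ s.1) (D s.1 (π s.1 s.2))) ∈
        RatEq ((powers k K n).prod X) := by
  classical
  refine torsion_of_hom _ _ fun l hl => ?_
  let l' : ((powers k K n).Pt →₀ ℤ) →+ ℚ :=
    l.comp (Finsupp.mapDomain.addMonoidHom fun x => (x, p))
  have hl' : ∀ r ∈ RatEq (powers k K n), l' r = 0 := by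
    intro r hr
    refine hl _ (Reg.push (X := powers k K n) (Y := (powers k K n).prod X)
      (F := fun x => (x, p)) ?_ hr)
    intro L _ _ x hx
    exact ⟨hx, hX L p⟩
  choose e he1 he2 using fun a => exists_van (β a) (χ a) (hν a)
  have h1 := master e he1 hc l' hl' D
  rw [map_sum, ← h1]
  refine Finset.sum_congr rfl fun π _ => ?_
  rw [map_zsmul, zsmul_eq_mul]
  congr 1
  change l (Finsupp.mapDomain _ _) = l (Finsupp.mapDomain _ _)
  congr 2
  congr 1
  funext s
  exact he2 s.1 _ fun h => hD s.1 h _

end Pool.Agent.Results.MP_386e47_ag.SchurMotives
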